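import Mathlib

namespace Pool.Agent.H1Z.PS

open Finset

/-- the interior simplices of the ears -/
def A (j : ℕ) : Finset (Fin 10) := if j = 1 then {9} else if j = 2 then {1, 9} else ∅

/-- the blocks of the spheres -/
def P (j : ℕ) : Finset (Finset (Fin 10)) :=
  if j = 0 then {{0, 2, 3, 6, 7, 8}, {1, 4, 5}}
  else if j = 1 then {{0, 2, 7, 8}, {3, 4, 5, 6}} else {{0, 2, 3, 5, 6, 7}}

/-- the ears -/
def E (j : ℕ) : Finset (Finset (Fin 10)) :=
  (A j ∪ (P j).sup id).powerset.filter (fun F => ∀ B ∈ P j, ¬ B ⊆ F)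

theorem sup0 : A 0 ∪ (P 0).sup id = ({9} : Finset (Fin 10))ᶜ := by decide +kernel
theorem sup1 : A 1 ∪ (P 1).sup id = ({1} : Finset (Fin 10))ᶜ := by decide +kernel
theorem sup2 : A 2 ∪ (P 2).sup id = ({4, 8} : Finset (Fin 10))ᶜ := by decide +kernel

theorem mem_E0 (F : Finset (Fin 10)) : F ∈ E 0 ↔
    9 ∉ F ∧ ¬ (0 ∈ F ∧ 2 ∈ F ∧ 3 ∈ F ∧ 6 ∈ F ∧ 7 ∈ F ∧ 8 ∈ F) ∧ ¬ (1 ∈ F ∧ 4 ∈ F ∧ 5 ∈ F) := by
  have hP : P 0 = {{0, 2, 3, 6, 7, 8}, {1, 4, 5}} := rfl
  rw [E, sup0, hP]
  simp only [Finset.mem_filter, Finset.mem_powerset, Finset.subset_compl_singleton,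
    Finset.mem_insert, Finset.mem_singleton, forall_eq_or_imp, forall_eq,
    Finset.insert_subset_iff, Finset.singleton_subset_iff]

theorem mem_E1 (F : Finset (Fin 10)) : F ∈ E 1 ↔
    1 ∉ F ∧ ¬ (0 ∈ F ∧ 2 ∈ F ∧ 7 ∈ F ∧ 8 ∈ F) ∧ ¬ (3 ∈ F ∧ 4 ∈ F ∧ 5 ∈ F ∧ 6 ∈ F) := by
  have hP : P 1 = {{0, 2, 7, 8}, {3, 4, 5, 6}} := rfl
  rw [E, sup1, hP]
  simp only [Finset.mem_filter, Finset.mem_powerset, Finset.subset_compl_singleton,
    Finset.mem_insert, Finset.mem_singleton, forall_eq_or_imp, forall_eq,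
    Finset.insert_subset_iff, Finset.singleton_subset_iff]

theorem mem_E2 (F : Finset (Fin 10)) : F ∈ E 2 ↔
    (4 ∉ F ∧ 8 ∉ F) ∧ ¬ (0 ∈ F ∧ 2 ∈ F ∧ 3 ∈ F ∧ 5 ∈ F ∧ 6 ∈ F ∧ 7 ∈ F) := by
  have hP : P 2 = {{0, 2, 3, 5, 6, 7}} := rfl
  rw [E, sup2, hP]
  simp only [Finset.mem_filter, Finset.mem_powerset, Finset.subset_compl_iff_disjoint_right,
    Finset.disjoint_insert_right, Finset.disjoint_singleton_right,
    Finset.mem_singleton, forall_eq,
    Finset.insert_subset_iff, Finset.singleton_subset_iff]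

theorem glue1 : ((Finset.range 1).biUnion E) ∩ E 1 = (E 1).filter (fun F => ¬ A 1 ⊆ F) := by
  ext F
  have hA : A 1 = {9} := rfl
  simp only [Finset.range_one, Finset.singleton_biUnion, Finset.mem_inter, Finset.mem_filter,
    mem_E0, mem_E1, hA, Finset.singleton_subset_iff]
  tauto

theorem glue2 : ((Finset.range 2).biUnion E) ∩ E 2 = (E 2).filter (fun F => ¬ A 2 ⊆ F) := by
  ext F
  have : Finset.range 2 = {0, 1} := by decide
  have hA : A 2 = {1, 9} := rfl
  simp only [this, Finset.biUnion_insert, Finset.singleton_biUnion, Finset.mem_inter,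
    Finset.mem_union, Finset.mem_filter, mem_E0, mem_E1, mem_E2, hA, Finset.insert_subset_iff,
    Finset.singleton_subset_iff]
  tauto

/-- the subset coded by the binary digits of `n` -/
def code (n : ℕ) : Finset (Fin 10) := Finset.univ.filter (fun i => n.testBit i.val = true)

theorem mem_code (n : ℕ) (i : Fin 10) : i ∈ code n ↔ n.testBit i.val = true := by
  simp [code]

theorem code_inj (m n : ℕ) (hm : m < 1024) (hn : n < 1024) (h : code m = code n) : m = n := by
  apply Nat.eq_of_testBit_eq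
  intro i
  by_cases hi : i < 10
  · have := mem_code m ⟨i, hi⟩
    rw [h, mem_code] at this
    simp only at this
    exact Bool.eq_iff_iff.2 this.symm
  · have h1 : 2 ^ 10 ≤ 2 ^ i := Nat.pow_le_pow_right (by norm_num) (by omega)
    rw [Nat.testBit_lt_two_pow (by omega), Nat.testBit_lt_two_pow (by omega)]

theorem code_surj (F : Finset (Fin 10)) : ∃ n, n < 1024 ∧ code n = F := by
  have h1 : ((Finset.range 1024).image code).card = 1024 := by
    rw [Finset.card_image_of_injOn, Finset.card_range]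
    intro m hm n hn h
    exact code_inj m n (by simpa using hm) (by simpa using hn) h
  have h2 : (Finset.range 1024).image code = Finset.univ := by
    apply Finset.eq_univ_of_card
    rw [h1, Fintype.card_finset, Fintype.card_fin]
    norm_num
  have h3 : F ∈ (Finset.range 1024).image code := by rw [h2]; exact Finset.mem_univ _
  obtain ⟨n, hn, rfl⟩ := Finset.mem_image.1 h3
  exact ⟨n, by simpa using hn, rfl⟩

def wt (n : ℕ) : ℕ :=
  (n.testBit 0).toNat + (n.testBit 1).toNat + (n.testBit 2).toNat + (n.testBit 3).toNat +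
  (n.testBit 4).toNat + (n.testBit 5).toNat + (n.testBit 6).toNat + (n.testBit 7).toNat +
  (n.testBit 8).toNat + (n.testBit 9).toNat

theorem card_code (n : ℕ) : (code n).card = wt n := by
  have h : ∀ b : Bool, (if b = true then 1 else 0) = b.toNat := by decide
  rw [code, Finset.card_filter]
  simp only [h, Fin.sum_univ_succ, Fin.sum_univ_zero, Fin.val_zero, Fin.val_succ, wt]
  norm_num
  ring

def inD (n : ℕ) : Bool :=
  (!n.testBit 9 && !(n.testBit 0 && n.testBit 2 && n.testBit 3 && n.testBit 6 && n.testBit 7 &&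
      n.testBit 8) && !(n.testBit 1 && n.testBit 4 && n.testBit 5)) ||
  (!n.testBit 1 && !(n.testBit 0 && n.testBit 2 && n.testBit 7 && n.testBit 8) &&
      !(n.testBit 3 && n.testBit 4 && n.testBit 5 && n.testBit 6)) ||
  (!n.testBit 4 && !n.testBit 8 && !(n.testBit 0 && n.testBit 2 && n.testBit 3 && n.testBit 5 &&
      n.testBit 6 && n.testBit 7))

theorem mem_D (n : ℕ) : code n ∈ (Finset.range 3).biUnion E ↔ inD n = true := by
  have : Finset.range 3 = {0, 1, 2} := by decide
  simp only [this, Finset.biUnion_insert, Finset.singleton_biUnion,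
    Finset.mem_union, mem_E0, mem_E1, mem_E2, mem_code, inD]
  have e0 : ((0 : Fin 10) : ℕ) = 0 := rfl
  have e1 : ((1 : Fin 10) : ℕ) = 1 := rfl
  have e2 : ((2 : Fin 10) : ℕ) = 2 := rfl
  have e3 : ((3 : Fin 10) : ℕ) = 3 := rfl
  have e4 : ((4 : Fin 10) : ℕ) = 4 := rfl
  have e5 : ((5 : Fin 10) : ℕ) = 5 := rfl
  have e6 : ((6 : Fin 10) : ℕ) = 6 := rfl
  have e7 : ((7 : Fin 10) : ℕ) = 7 := rfl
  have e8 : ((8 : Fin 10) : ℕ) = 8 := rfl
  have e9 : ((9 : Fin 10) : ℕ) = 9 := rfl
  rw [e0, e1, e2, e3, e4, e5, e6, e7, e8, e9]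
  simp only [Bool.or_eq_true, Bool.and_eq_true, Bool.not_eq_true', ← Bool.not_eq_true,
    and_assoc, or_assoc]

theorem card_D (i : ℕ) : (((Finset.range 3).biUnion E).filter (fun F => F.card = i)).card =
    (List.range 1024).countP (fun n => inD n && Nat.beq (wt n) i) := by
  rw [List.countP_eq_length_filter,
    ← List.toFinset_card_of_nodup (List.nodup_range.filter _)]
  symm
  apply Finset.card_bij (fun n _ => code n)
  · intro n hn
    rw [List.mem_toFinset, List.mem_filter, Bool.and_eq_true, Nat.beq_eq] at hn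
    rw [Finset.mem_filter, mem_D, card_code]
    exact hn.2
  · intro m hm n hn h
    rw [List.mem_toFinset, List.mem_filter, List.mem_range] at hm hn
    exact code_inj m n hm.1 hn.1 h
  · intro F hF
    obtain ⟨n, hn, rfl⟩ := code_surj F
    rw [Finset.mem_filter, mem_D, card_code] at hF
    refine ⟨n, ?_, rfl⟩
    rw [List.mem_toFinset, List.mem_filter, List.mem_range, Bool.and_eq_true, Nat.beq_eq]
    exact ⟨hn, hF⟩

theorem f0 : (((Finset.range 3).biUnion E).filter (fun F => F.card = 0)).card = 1 := by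
  rw [card_D]; decide +kernel
theorem f1 : (((Finset.range 3).biUnion E).filter (fun F => F.card = 1)).card = 10 := by
  rw [card_D]; decide +kernel
theorem f2 : (((Finset.range 3).biUnion E).filter (fun F => F.card = 2)).card = 45 := by
  rw [card_D]; decide +kernel
theorem f3 : (((Finset.range 3).biUnion E).filter (fun F => F.card = 3)).card = 117 := by
  rw [card_D]; decide +kernel
theorem f4 : (((Finset.range 3).biUnion E).filter (fun F => F.card = 4)).card = 191 := by
  rw [card_D]; decide +kernel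
theorem f5 : (((Finset.range 3).biUnion E).filter (fun F => F.card = 5)).card = 199 := by
  rw [card_D]; decide +kernel
theorem f6 : (((Finset.range 3).biUnion E).filter (fun F => F.card = 6)).card = 126 := by
  rw [card_D]; decide +kernel
theorem f7 : (((Finset.range 3).biUnion E).filter (fun F => F.card = 7)).card = 40 := by
  rw [card_D]; decide +kernel

theorem shape : ∀ j ≤ 2, (∀ B ∈ P j, 2 ≤ B.card ∧ Disjoint (A j) B) ∧
        (∀ B ∈ P j, ∀ C ∈ P j, B ≠ C → Disjoint B C) ∧
        (A j).card + ∑ B ∈ P j, (B.card - 1) = 7 := by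
  intro j hj
  interval_cases j <;> decide +kernel

end Pool.Agent.H1Z.PS
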