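import Mathlib

namespace Pool.Agent.H1Z.PS

/-- the pairs `(p, q)` with `p + q ≤ t` -/
def pts (t : ℕ) : List (ℕ × ℕ) :=
  (List.range (t + 1)).flatMap fun p => (List.range (t + 1 - p)).map fun q => (p, q)

/-- the monomial with exponents `(x.1, x.2, t - x.1 - x.2)` divides the one with exponents
`(a.1, a.2, 7 - a.1 - a.2)` -/
def dv (t : ℕ) (x a : ℕ × ℕ) : Bool :=
  Nat.ble x.1 a.1 && Nat.ble x.2 a.2 && Nat.ble (t - x.1 - x.2) (7 - a.1 - a.2)

def cnt (t : ℕ) (a b c : ℕ × ℕ) : ℕ :=
  (pts t).countP fun x => dv t x a || dv t x b || dv t x c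

def checkA (a : ℕ × ℕ) : Bool :=
  (pts 7).all fun b => (pts 7).all fun c =>
    !(Nat.beq (cnt 3 a b c) 7 && Nat.beq (cnt 2 a b c) 6 && Nat.beq (cnt 4 a b c) 8 &&
      Nat.beq (cnt 6 a b c) 5)

theorem c00 : checkA (0, 0) = true := by decide +kernel
theorem c01 : checkA (0, 1) = true := by decide +kernel
theorem c02 : checkA (0, 2) = true := by decide +kernel
theorem c03 : checkA (0, 3) = true := by decide +kernel
theorem c04 : checkA (0, 4) = true := by decide +kernel
theorem c05 : checkA (0, 5) = true := by decide +kernel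
theorem c06 : checkA (0, 6) = true := by decide +kernel
theorem c07 : checkA (0, 7) = true := by decide +kernel
theorem c10 : checkA (1, 0) = true := by decide +kernel
theorem c11 : checkA (1, 1) = true := by decide +kernel
theorem c12 : checkA (1, 2) = true := by decide +kernel
theorem c13 : checkA (1, 3) = true := by decide +kernel
theorem c14 : checkA (1, 4) = true := by decide +kernel
theorem c15 : checkA (1, 5) = true := by decide +kernel
theorem c16 : checkA (1, 6) = true := by decide +kernel
theorem c20 : checkA (2, 0) = true := by decide +kernel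
theorem c21 : checkA (2, 1) = true := by decide +kernel
theorem c22 : checkA (2, 2) = true := by decide +kernel
theorem c23 : checkA (2, 3) = true := by decide +kernel
theorem c24 : checkA (2, 4) = true := by decide +kernel
theorem c25 : checkA (2, 5) = true := by decide +kernel
theorem c30 : checkA (3, 0) = true := by decide +kernel
theorem c31 : checkA (3, 1) = true := by decide +kernel
theorem c32 : checkA (3, 2) = true := by decide +kernel
theorem c33 : checkA (3, 3) = true := by decide +kernel
theorem c34 : checkA (3, 4) = true := by decide +kernel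
theorem c40 : checkA (4, 0) = true := by decide +kernel
theorem c41 : checkA (4, 1) = true := by decide +kernel
theorem c42 : checkA (4, 2) = true := by decide +kernel
theorem c43 : checkA (4, 3) = true := by decide +kernel
theorem c50 : checkA (5, 0) = true := by decide +kernel
theorem c51 : checkA (5, 1) = true := by decide +kernel
theorem c52 : checkA (5, 2) = true := by decide +kernel
theorem c60 : checkA (6, 0) = true := by decide +kernel
theorem c61 : checkA (6, 1) = true := by decide +kernel
theorem c70 : checkA (7, 0) = true := by decide +kernel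

theorem pts_seven : pts 7 = [(0, 0), (0, 1), (0, 2), (0, 3), (0, 4), (0, 5), (0, 6), (0, 7), (1, 0), (1, 1), (1, 2), (1, 3), (1, 4), (1, 5), (1, 6), (2, 0), (2, 1), (2, 2), (2, 3), (2, 4), (2, 5), (3, 0), (3, 1), (3, 2), (3, 3), (3, 4), (4, 0), (4, 1), (4, 2), (4, 3), (5, 0), (5, 1), (5, 2), (6, 0), (6, 1), (7, 0)] := by decide

theorem checkA_eq : ∀ a ∈ pts 7, checkA a = true := by
  rw [pts_seven]
  simp only [List.forall_mem_cons]
  exact ⟨c00, c01, c02, c03, c04, c05, c06, c07, c10, c11, c12, c13, c14, c15, c16, c20, c21, c22, c23, c24, c25, c30, c31, c32, c33, c34, c40, c41, c42, c43, c50, c51, c52, c60, c61, c70, fun _ h => absurd h List.not_mem_nil⟩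

theorem mem_pts (t : ℕ) (x : ℕ × ℕ) : x ∈ pts t ↔ x.1 + x.2 ≤ t := by
  obtain ⟨p, q⟩ := x
  simp only [pts, List.mem_flatMap, List.mem_range, List.mem_map, Prod.mk.injEq]
  constructor
  · rintro ⟨a, ha, b, hb, rfl, rfl⟩
    omega
  · intro h
    exact ⟨p, by omega, q, by omega, rfl, rfl⟩

theorem nodup_pts (t : ℕ) : (pts t).Nodup := by
  unfold pts
  rw [List.nodup_flatMap]
  constructor
  · intro p _
    exact List.Nodup.map (fun a b h => (Prod.mk.inj h).2) List.nodup_range
  · refine List.Pairwise.imp ?_ (List.nodup_range (n := t + 1))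
    intro a b hab
    simp only [Function.onFun, List.disjoint_left, List.mem_map]
    rintro x ⟨q, _, rfl⟩ ⟨q', _, h⟩
    exact hab (Prod.mk.inj h).1.symm

theorem not_cnt (a b c : ℕ × ℕ) (ha : a.1 + a.2 ≤ 7) (hb : b.1 + b.2 ≤ 7) (hc : c.1 + c.2 ≤ 7)
    (h3 : cnt 3 a b c = 7) (h2 : cnt 2 a b c = 6) (h4 : cnt 4 a b c = 8)
    (h6 : cnt 6 a b c = 5) : False := by
  have h := checkA_eq a ((mem_pts 7 a).2 ha)
  unfold checkA at h
  rw [List.all_eq_true] at h
  have h := h b ((mem_pts 7 b).2 hb)
  rw [List.all_eq_true] at h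
  have h := h c ((mem_pts 7 c).2 hc)
  rw [h3, h2, h4, h6] at h
  exact absurd h (by decide)

end Pool.Agent.H1Z.PS
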