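import Pool.Agent.H1Z.PSCount

namespace Pool.Agent.H1Z.PS

open Finset

theorem eq_single_of_sum_one {r : ℕ} (μ : Fin r → ℕ) (h : ∑ i, μ i = 1) :
    ∃ i, μ = Pi.single i 1 := by
  have h1 : ∃ i, μ i ≠ 0 := by
    by_contra hc
    push Not at hc
    simp [hc] at h
  obtain ⟨i, hi⟩ := h1
  refine ⟨i, ?_⟩
  have h2 := Finset.add_sum_erase Finset.univ μ (Finset.mem_univ i)
  have h3 : ∑ j ∈ Finset.univ.erase i, μ j = 0 := by omega
  rw [Finset.sum_eq_zero_iff] at h3
  funext j
  by_cases hj : j = i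
  · subst hj
    simp only [Pi.single_eq_same]
    omega
  · rw [Pi.single_eq_of_ne hj]
    exact h3 j (by simp [hj])

theorem sum_three {r : ℕ} (i j k : Fin r) (hij : i ≠ j) (hik : i ≠ k) (hjk : j ≠ k)
    (μ : Fin r → ℕ) (h : ∀ l, l ≠ i → l ≠ j → l ≠ k → μ l = 0) :
    ∑ l, μ l = μ i + μ j + μ k := by
  have h1 : ∑ l, μ l = ∑ l ∈ ({i, j, k} : Finset (Fin r)), μ l := by
    symm
    apply Finset.sum_subset (Finset.subset_univ _)
    intro l _ hl
    simp only [Finset.mem_insert, Finset.mem_singleton, not_or] at hl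
    exact h l hl.1 hl.2.1 hl.2.2
  rw [h1, Finset.sum_insert (by simp [hij, hik]), Finset.sum_insert (by simp [hjk]),
    Finset.sum_singleton]
  ring

/-- `(1, 3, 6, 7, 8, 7, 5, 3)` is not a pure O-sequence. -/
theorem not_pure (r : ℕ) (M : Finset (Fin r → ℕ))
    (hdown : ∀ μ ∈ M, ∀ ν : Fin r → ℕ, ν ≤ μ → ν ∈ M)
    (hpure : ∀ μ ∈ M, ∀ ν ∈ M, (∀ κ ∈ M, μ ≤ κ → κ = μ) → (∀ κ ∈ M, ν ≤ κ → κ = ν) →
        ∑ i, μ i = ∑ i, ν i)
    (h1 : (M.filter (fun μ => ∑ i, μ i = 1)).card = 3)
    (h2 : (M.filter (fun μ => ∑ i, μ i = 2)).card = 6)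
    (h3 : (M.filter (fun μ => ∑ i, μ i = 3)).card = 7)
    (h4 : (M.filter (fun μ => ∑ i, μ i = 4)).card = 8)
    (h6 : (M.filter (fun μ => ∑ i, μ i = 6)).card = 5)
    (h7 : (M.filter (fun μ => ∑ i, μ i = 7)).card = 3)
    (h8 : ∀ k, 7 < k → (M.filter (fun μ => ∑ i, μ i = k)).card = 0) : False := by
  classical
  have hle : ∀ μ ∈ M, ∑ i, μ i ≤ 7 := by
    intro μ hμ
    by_contra hc
    have := h8 (∑ i, μ i) (by omega)
    rw [Finset.card_eq_zero] at this
    have h : μ ∈ M.filter (fun ν => ∑ i, ν i = ∑ i, μ i) := by simp [hμ]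
    rw [this] at h
    simp at h
  obtain ⟨a, b, c, -, -, -, habc⟩ := Finset.card_eq_three.1 h7
  have hmem : ∀ μ, (μ ∈ M ∧ ∑ i, μ i = 7) ↔ (μ = a ∨ μ = b ∨ μ = c) := by
    intro μ
    have : μ ∈ M.filter (fun μ => ∑ i, μ i = 7) ↔ μ ∈ ({a, b, c} : Finset (Fin r → ℕ)) := by
      rw [habc]
    simpa using this
  have ha := (hmem a).2 (Or.inl rfl)
  have hb := (hmem b).2 (Or.inr (Or.inl rfl))
  have hc := (hmem c).2 (Or.inr (Or.inr rfl))
  have hamax : ∀ κ ∈ M, a ≤ κ → κ = a := by
    intro κ hκ hak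
    have h := hle κ hκ
    have h' : ∑ i, a i = ∑ i, κ i := by
      apply le_antisymm (Finset.sum_le_sum fun i _ => hak i)
      omega
    funext l
    exact ((Finset.sum_eq_sum_iff_of_le (fun i _ => hak i)).1 h' l (Finset.mem_univ l)).symm
  have hM : ∀ μ, μ ∈ M ↔ (μ ≤ a ∨ μ ≤ b ∨ μ ≤ c) := by
    intro μ
    constructor
    · intro hμ
      obtain ⟨κ, hμκ, hκ⟩ := Finset.exists_le_maximal M hμ
      have hκM : κ ∈ M := hκ.prop
      have hs := hpure κ hκM a ha.1
        (fun κ' h' hle' => le_antisymm (hκ.le_of_ge h' hle') hle') hamax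
      rcases (hmem κ).1 ⟨hκM, by omega⟩ with h | h | h
      · left; rwa [← h]
      · right; left; rwa [← h]
      · right; right; rwa [← h]
    · rintro (h | h | h)
      · exact hdown a ha.1 μ h
      · exact hdown b hb.1 μ h
      · exact hdown c hc.1 μ h
  obtain ⟨u, v, w, huv, huw, hvw, huvw⟩ := Finset.card_eq_three.1 h1
  have hmem1 : ∀ μ, (μ ∈ M ∧ ∑ i, μ i = 1) ↔ (μ = u ∨ μ = v ∨ μ = w) := by
    intro μ
    have : μ ∈ M.filter (fun μ => ∑ i, μ i = 1) ↔ μ ∈ ({u, v, w} : Finset (Fin r → ℕ)) := by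
      rw [huvw]
    simpa using this
  obtain ⟨i, rfl⟩ := eq_single_of_sum_one u ((hmem1 u).2 (Or.inl rfl)).2
  obtain ⟨j, rfl⟩ := eq_single_of_sum_one v ((hmem1 v).2 (Or.inr (Or.inl rfl))).2
  obtain ⟨k, rfl⟩ := eq_single_of_sum_one w ((hmem1 w).2 (Or.inr (Or.inr rfl))).2
  have hij : i ≠ j := fun h => huv (by rw [h])
  have hik : i ≠ k := fun h => huw (by rw [h])
  have hjk : j ≠ k := fun h => hvw (by rw [h])
  have hinj : ∀ l m : Fin r, (Pi.single l 1 : Fin r → ℕ) = Pi.single m 1 → l = m := by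
    intro l m h
    by_contra hne
    have := congrFun h l
    rw [Pi.single_eq_same, Pi.single_eq_of_ne hne] at this
    omega
  have hsupp : ∀ μ ∈ M, ∀ l, l ≠ i → l ≠ j → l ≠ k → μ l = 0 := by
    intro μ hμ l hi hj hk
    by_contra hne
    have hl : (Pi.single l 1 : Fin r → ℕ) ∈ M := by
      apply hdown μ hμ
      intro m
      by_cases hm : m = l
      · subst hm
        simp only [Pi.single_eq_same]
        omega
      · rw [Pi.single_eq_of_ne hm]
        exact Nat.zero_le _
    rcases (hmem1 _).1 ⟨hl, by simp⟩ with h | h | h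
    · exact hi (hinj _ _ h)
    · exact hj (hinj _ _ h)
    · exact hk (hinj _ _ h)
  have hsum : ∀ μ ∈ M, ∑ l, μ l = μ i + μ j + μ k := fun μ hμ =>
    sum_three i j k hij hik hjk μ (hsupp μ hμ)
  have hsa := hsum a ha.1
  have hsb := hsum b hb.1
  have hsc := hsum c hc.1
  have key : ∀ t, (M.filter (fun μ => ∑ l, μ l = t)).card =
      cnt t (a i, a j) (b i, b j) (c i, c j) := by
    intro t
    unfold cnt
    rw [List.countP_eq_length_filter,
      ← List.toFinset_card_of_nodup ((nodup_pts t).filter _)]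
    apply Finset.card_bij (fun μ _ => (μ i, μ j))
    · intro μ hμ
      rw [Finset.mem_filter] at hμ
      have hs := hsum μ hμ.1
      rw [List.mem_toFinset, List.mem_filter, mem_pts]
      refine ⟨by simp only; omega, ?_⟩
      simp only [dv, Bool.or_eq_true, Bool.and_eq_true, Nat.ble_eq]
      rcases (hM μ).1 hμ.1 with h | h | h
      · left; left
        have e1 : μ i ≤ a i := h i
        have e2 : μ j ≤ a j := h j
        have e3 : μ k ≤ a k := h k
        omega
      · left; right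
        have e1 : μ i ≤ b i := h i
        have e2 : μ j ≤ b j := h j
        have e3 : μ k ≤ b k := h k
        omega
      · right
        have e1 : μ i ≤ c i := h i
        have e2 : μ j ≤ c j := h j
        have e3 : μ k ≤ c k := h k
        omega
    · intro μ hμ ν hν h
      rw [Finset.mem_filter] at hμ hν
      have hs := hsum μ hμ.1
      have hs' := hsum ν hν.1
      obtain ⟨e1, e2⟩ := Prod.mk.inj h
      funext l
      by_cases hi : l = i
      · rw [hi]; exact e1
      by_cases hj : l = j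
      · rw [hj]; exact e2
      by_cases hk : l = k
      · rw [hk]; omega
      rw [hsupp μ hμ.1 l hi hj hk, hsupp ν hν.1 l hi hj hk]
    · rintro ⟨p, q⟩ hx
      rw [List.mem_toFinset, List.mem_filter, mem_pts] at hx
      obtain ⟨hpq, hx⟩ := hx
      simp only at hpq
      simp only [dv, Bool.or_eq_true, Bool.and_eq_true, Nat.ble_eq] at hx
      let μ : Fin r → ℕ := fun l =>
        if l = i then p else if l = j then q else if l = k then t - p - q else 0
      have ei : μ i = p := by simp [μ]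
      have ej : μ j = q := by simp [μ, hij.symm]
      have ek : μ k = t - p - q := by simp [μ, hik.symm, hjk.symm]
      have hle' : ∀ x : Fin r → ℕ, p ≤ x i → q ≤ x j → t - p - q ≤ x k → μ ≤ x := by
        intro x e1 e2 e3 l
        by_cases hi : l = i
        · rw [hi, ei]; exact e1
        by_cases hj : l = j
        · rw [hj, ej]; exact e2
        by_cases hk : l = k
        · rw [hk, ek]; exact e3
        simp [μ, hi, hj, hk]
      have hμ : μ ∈ M := by
        rw [hM]
        rcases hx with (h | h) | h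
        · left; exact hle' a h.1.1 h.1.2 (by omega)
        · right; left; exact hle' b h.1.1 h.1.2 (by omega)
        · right; right; exact hle' c h.1.1 h.1.2 (by omega)
      refine ⟨μ, ?_, by rw [ei, ej]⟩
      rw [Finset.mem_filter]
      refine ⟨hμ, ?_⟩
      rw [hsum μ hμ, ei, ej, ek]
      omega
  refine not_cnt (a i, a j) (b i, b j) (c i, c j) (by simp only; omega) (by simp only; omega)
    (by simp only; omega) ?_ ?_ ?_ ?_
  · rw [← key, h3]
  · rw [← key, h2]
  · rw [← key, h4]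
  · rw [← key, h6]

end Pool.Agent.H1Z.PS
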